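import Pool.Agent.Work.MP_e487d8_al.Y.Cry.Simple
import Pool.Agent.Work.MP_e487d8_al.Y.Fin.Cls

/-! MP_e487d8_al, block CRY: `Kr i (ε_i M) M` is simple, the modules `L(i^a)`, the contract
`CFacts`. -/

set_option autoImplicit false

open scoped TensorProduct
open Pool.Agent.E487.Hopf

namespace Pool.Agent.KLS

variable {K I : Type} [Field K] [Fintype I] [DecidableEq I]

section

variable {D : Datum K I} {i : I} {a n N : ℕ} {M X P H Z : Type}
  [AddCommGroup M] [Module K M] [Module (KLRAlg D) M] [IsScalarTower K (KLRAlg D) M]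
  [AddCommGroup X] [Module K X] [Module (KLRAlg D) X] [IsScalarTower K (KLRAlg D) X]
  [AddCommGroup P] [Module K P] [Module (KLRAlg D) P] [IsScalarTower K (KLRAlg D) P]
  [AddCommGroup H] [Module K H] [Module (KLRAlg D) H] [IsScalarTower K (KLRAlg D) H]
  [AddCommGroup Z] [Module K Z] [Module (KLRAlg D) Z] [IsScalarTower K (KLRAlg D) Z]

/-! ### `Kr i (ε_i M) M` -/

omit [Module K M] [IsScalarTower K (KLRAlg D) M] in
/-- `e_i (Kr i a M) = 0` for `a ≥ ε_i(M)` -/
theorem Kr.noKr (hM : IsStrand D N M) (ha : eps D i M ≤ a) (y : Kr D i a M)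
    (hy : IsKr D i 1 y) : y = 0 := by
  apply Kr.val_injective
  rw [Kr.val_zero]
  refine eq_zero_of_eps_lt (i := i) (a := a + 1) hM (by omega) ?_
  intro k hk
  by_cases h : k < a
  · exact (Kr.val_isKr y k h).1
  · have hk' : k = a := by omega
    subst hk'
    have h1 := congrArg Kr.val (hy 0 (by omega)).1
    rwa [Kr.val_smul, D.shn_e, Nat.add_zero] at h1

omit [Module K M] [IsScalarTower K (KLRAlg D) M] in
theorem Kr.nontrivial (hM : IsStrand D N M) (hn : Nilp D M) [Nontrivial M] :
    Nontrivial (Kr D i (eps D i M) M) := by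
  obtain ⟨u, hu, he⟩ := exists_eps (i := i) hM
  obtain ⟨c, h1, h2, -⟩ := exists_isKr hn hu he
  exact ⟨⟨Kr.of (c • u) h2, 0, fun h => h1 (congrArg Kr.val h)⟩⟩

/-- a finite dimensional nonzero module has a simple submodule -/
theorem exists_simple_sub [FiniteDimensional K M] [Nontrivial M] :
    ∃ S : Submodule (KLRAlg D) M, IsSimpleModule (KLRAlg D) S := by
  have : IsArtinian (KLRAlg D) M := isArtinian_of_tower K inferInstance
  obtain ⟨S, hS⟩ := IsAtomic.exists_atom (Submodule (KLRAlg D) M)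
  exact ⟨S, isSimpleModule_iff_isAtom.2 hS⟩

/-- a submodule of `Kr i a M` generates the simple module `M` -/
theorem isGen_sub [IsSimpleModule (KLRAlg D) M] (S : Submodule (KLRAlg D) (Kr D i a M))
    [Nontrivial S] : IsGen D i a S M ((Kr.valₗ D i a M).comp (Conv.toK S.subtype)) where
  bal _ _ := rfl
  kr x := Kr.val_isKr x.1
  gen := by
    rcases eq_bot_or_eq_top (Submodule.span (KLRAlg D)
      (Set.range ((Kr.valₗ D i a M).comp (Conv.toK S.subtype)))) with h | h
    · exfalso
      obtain ⟨x, hx⟩ := exists_ne (0 : S)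
      have h1 : Kr.val x.1 ∈ Submodule.span (KLRAlg D)
          (Set.range ((Kr.valₗ D i a M).comp (Conv.toK S.subtype))) :=
        Submodule.subset_span ⟨x, rfl⟩
      rw [h, Submodule.mem_bot] at h1
      exact hx (Subtype.ext (Kr.val_injective h1))
    · exact h

theorem Kr.simple (hb : S_basis D) (hM : Smp D N M) (i : I) :
    IsSimpleModule (KLRAlg D) (Kr D i (eps D i M) M) := by
  have := hM.simple
  have hne : Nontrivial M := IsSimpleModule.nontrivial (KLRAlg D) M
  have hfd := hM.fd
  have hK : FdMod D (N - eps D i M) (Kr D i (eps D i M) M) := Kr.fdMod hM.toFdMod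
  have hKf := hK.fd
  have hKn : Nontrivial (Kr D i (eps D i M) M) := Kr.nontrivial hM.strand hM.nilp
  obtain ⟨S, hS⟩ := exists_simple_sub (M := Kr D i (eps D i M) M) (D := D)
  have hSn : Nontrivial S := IsSimpleModule.nontrivial (KLRAlg D) S
  obtain ⟨L, i1, i2, i3, i4, v, hv, hk, hL, hg, hc, -, hI⟩ := exists_Lp hb i (eps D i M)
  have h1 := hI (N - eps D i M) S (hK.sub S) (fun x hx => by
    have h2 := Kr.noKr hM.strand le_rfl x.1 (hx.map S.subtype)
    exact Subtype.ext h2)
  obtain ⟨g, hg, -⟩ := h1.exists_surj (isGen_sub S)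
  obtain ⟨f⟩ := h1.equiv_Kr g hg
  exact IsSimpleModule.congr f.symm

theorem Kr.smp (hb : S_basis D) (hM : Smp D N M) (i : I) :
    Smp D (N - eps D i M) (Kr D i (eps D i M) M) where
  toFdMod := Kr.fdMod hM.toFdMod
  simple := Kr.simple hb hM i

/-- the inclusion of `Kr` generates a simple module -/
theorem Kr.isGen (hM : Smp D N M) (i : I) :
    IsGen D i (eps D i M) (Kr D i (eps D i M) M) M (Kr.valₗ D i (eps D i M) M) where
  bal _ _ := rfl
  kr x := Kr.val_isKr x
  gen := by
    have := hM.simple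
    have hne : Nontrivial M := IsSimpleModule.nontrivial (KLRAlg D) M
    have hKn : Nontrivial (Kr D i (eps D i M) M) := Kr.nontrivial hM.strand hM.nilp
    rcases eq_bot_or_eq_top (Submodule.span (KLRAlg D)
      (Set.range (Kr.valₗ D i (eps D i M) M))) with h | h
    · exfalso
      obtain ⟨x, hx⟩ := exists_ne (0 : Kr D i (eps D i M) M)
      have h1 : Kr.val x ∈ Submodule.span (KLRAlg D)
          (Set.range (Kr.valₗ D i (eps D i M) M)) := Submodule.subset_span ⟨x, rfl⟩
      rw [h, Submodule.mem_bot] at h1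
      exact hx (Kr.val_injective h1)
    · exact h

/-! ### the modules `L(i^a)` -/

/-- the properties of `L(i^a)` -/
structure IsLp (D : Datum K I) (i : I) (a : ℕ) (L : SMod D) (v : L.M) : Prop where
  n_eq : L.n = a
  kr : IsKr D i a v
  gen : Submodule.span (KLRAlg D) {v} = ⊤
  ch : chrQ D L.n L.M = chLp i a
  ind : ∀ (n : ℕ) (X : Type) [AddCommGroup X] [Module K X] [Module (KLRAlg D) X]
    [IsScalarTower K (KLRAlg D) X], FdMod D n X → (∀ x : X, IsKr D i 1 x → x = 0) →
    IsInd D i a n X (Conv D L.n L.M X) (Conv.mk D L.n L.M X v)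

omit [Module K M] [IsScalarTower K (KLRAlg D) M] in
/-- a module with `a` strands generated by a vector in `e(i^a)` -/
theorem isEw_of_gen (hM : IsStrand D a M) {v : M} (hv : IsEw D i a v)
    (hg : Submodule.span (KLRAlg D) {v} = ⊤) (u : M) : IsEw D i a u := by
  have key : ∀ (b : KLRAlg D) (u : M), IsEw D i a u → IsEw D i a (b • u) := by
    intro b
    induction b using KLRAlg.induction with
    | hs r =>
      intro u hu k hk
      rw [← mul_smul, ← Algebra.commutes, mul_smul, hu k hk]
    | hadd b c hb hc =>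
      intro u hu
      rw [add_smul]
      exact (hb u hu).add (hc u hu)
    | hmul b c hb hc =>
      intro u hu
      rw [mul_smul]
      exact hb _ (hc u hu)
    | he l j =>
      intro u hu k hk
      rw [← mul_smul, D.e_comm, mul_smul, hu k hk]
    | hx l =>
      intro u hu
      exact hu.x_smul l
    | ht l =>
      intro u hu
      by_cases hl : a ≤ l + 1
      · rw [hM.t_smul_zero hl]
        exact isEw_zero
      · intro k hk
        by_cases h1 : k = l
        · subst h1
          rw [← mul_smul, ← D.t_e1, mul_smul, hu (k + 1) (by omega)]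
        by_cases h2 : k = l + 1
        · subst h2
          rw [← mul_smul, ← D.t_e0, mul_smul, hu l (by omega)]
        · rw [← mul_smul, ← D.t_e l k i h1 h2, mul_smul, hu k hk]
  have hu : u ∈ Submodule.span (KLRAlg D) {v} := by rw [hg]; trivial
  obtain ⟨b, rfl⟩ := Submodule.mem_span_singleton.1 hu
  exact key b v hv

theorem exists_isLp (hb : S_basis D) (i : I) (a : ℕ) : ∃ (L : SMod D) (v : L.M),
    IsLp D i a L v := by
  obtain ⟨L, i1, i2, i3, i4, v, hv, hk, hL, hg, hc, ⟨-, hker⟩, hI⟩ := exists_Lp hb i a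
  have hne : Nontrivial L := ⟨⟨v, 0, hv⟩⟩
  have hs : IsSimpleModule (KLRAlg D) L := by
    rw [isSimpleModule_iff_toSpanSingleton_surjective]
    refine ⟨hne, fun u hu w => ?_⟩
    obtain ⟨c, h1, h2, -⟩ := exists_isKr hL.nilp hu (isEw_of_gen hL.strand hk.isEw hg u)
    obtain ⟨r, hr⟩ := hker _ h2
    have hr0 : r ≠ 0 := by
      rintro rfl
      exact h1 (by rw [hr, zero_smul])
    have hw : w ∈ Submodule.span (KLRAlg D) {v} := by rw [hg]; trivial
    obtain ⟨b, rfl⟩ := Submodule.mem_span_singleton.1 hw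
    refine ⟨b * (r⁻¹ • c), ?_⟩
    rw [LinearMap.toSpanSingleton_apply, mul_smul, smul_assoc, hr, smul_smul, inv_mul_cancel₀ hr0,
      one_smul]
  exact ⟨⟨a, L, ⟨hL, hs⟩⟩, v, ⟨rfl, hk, hg, hc, fun n X _ _ _ _ hX h0 => hI n X hX h0⟩⟩

/-! ### characters -/

theorem Sh_Lp_chLp (i : I) (a : ℕ) : Sh.Lp i a (chLp i a) = (a.factorial : ℚ) • (1 : Sh I ℚ) := by
  apply Sh.ext'
  intro w
  rw [Sh.smul_apply]
  change chLp i a (List.replicate a i ++ w) = _
  unfold chLp
  cases w with
  | nil => rw [List.append_nil, if_pos rfl, Sh.one_nil, mul_one]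
  | cons j w =>
    rw [Sh.one_cons, mul_zero, if_neg]
    intro h
    have := congrArg List.length h
    simp at this

theorem chr_cons_eq_zero (hX : FdMod D n X) (h0 : ∀ x : X, IsKr D i 1 x → x = 0) (ν : List I) :
    chr D n X (i :: ν) = 0 := by
  have := hX.fd
  by_contra h
  have hl := chr_length h
  obtain ⟨u, hu⟩ := (chr_ne_zero_iff hl).1 h
  have h1 : IsEw D i 1 (D.eW (i :: ν) • u) := by
    intro k hk
    have hk' : k = 0 := by omega
    subst hk'
    rw [D.eW_cons, ← mul_smul, ← mul_assoc, D.e_idem]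
  obtain ⟨c, h2, h3, -⟩ := exists_isKr hX.nilp hu h1
  exact h2 (h0 _ h3)

theorem chrQ_ind {L : SMod D} {v : L.M} (hb : S_basis D) (hL : IsLp D i a L v) (hX : FdMod D n X)
    (h0 : ∀ x : X, IsKr D i 1 x → x = 0) (ν : List I) :
    chrQ D (L.n + n) (Conv D L.n L.M X) (List.replicate a i ++ ν) =
      (a.factorial : ℚ) * chrQ D n X ν := by
  have h1 : Sh.L i (chrQ D n X) = 0 := by
    apply Sh.ext'
    intro w
    rw [Sh.L_apply, chrQ_apply, chr_cons_eq_zero hX h0, Nat.cast_zero, Sh.zero_apply]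
  have h2 : Sh.Lp i a (chrQ D n X * chLp i a) = chrQ D n X * Sh.Lp i a (chLp i a) :=
    Sh.Lp_of_L_zero h1 a _
  rw [Sh_Lp_chLp, mul_smul_comm, mul_one] at h2
  rw [(Conv.fdMod_chrQ hb L.smp.toFdMod hX).2, hL.ch, mul_comm]
  exact congrFun h2 ν

theorem isEw_eW (u : M) (ν : List I) : IsEw D i a (D.eW (List.replicate a i ++ ν) • u) := by
  intro k hk
  rw [D.eW_append, mul_smul, ← mul_smul]
  congr 1
  induction a generalizing k with
  | zero => omega
  | succ a ih =>
    rw [List.replicate_succ, D.eW_cons]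
    cases k with
    | zero => rw [← mul_assoc, D.e_idem]
    | succ k =>
      rw [← mul_assoc, D.e_comm, mul_assoc, show k + 1 = 1 + k by omega, ← D.shn_e, ← map_mul,
        ih k (by omega)]

/-- a proper quotient of `P_a X` has the same `i^a ν` word spaces -/
theorem IsInd.chr_quot {j : X →ₗ[K] P} (h : IsInd D i a n X P j) [IsSimpleModule (KLRAlg D) X]
    [Nontrivial H] (g : P →ₗ[KLRAlg D] H) (hg : Function.Surjective g) (m : ℕ) (ν : List I) :
    chr D m H (List.replicate a i ++ ν) = chr D m P (List.replicate a i ++ ν) := by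
  by_cases hl : (List.replicate a i ++ ν).length = m
  · rw [chr_eq hl, chr_eq hl]
    have h1 : (wordSp D P (List.replicate a i ++ ν)).map (Conv.toK g) =
        wordSp D H (List.replicate a i ++ ν) := by
      ext u
      constructor
      · rintro ⟨p, hp, rfl⟩
        rw [mem_wordSp, Conv.toK_apply, ← map_smul, mem_wordSp.1 hp]
      · intro hu
        obtain ⟨p, rfl⟩ := hg u
        refine ⟨D.eW (List.replicate a i ++ ν) • p, smul_mem_wordSp _ _, ?_⟩
        rw [Conv.toK_apply, map_smul, mem_wordSp.1 hu]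
    rw [← h1]
    refine (LinearEquiv.finrank_eq (LinearEquiv.ofBijective
      ((Conv.toK g).submoduleMap (wordSp D P (List.replicate a i ++ ν)))
      ⟨?_, LinearMap.submoduleMap_surjective _ _⟩)).symm
    rw [← LinearMap.ker_eq_bot, LinearMap.ker_eq_bot']
    intro u hu
    apply Subtype.ext
    apply h.inj_ew g hg _ (congrArg Subtype.val hu)
    have h2 := isEw_eW (D := D) (i := i) (a := a) (u : P) ν
    rwa [mem_wordSp.1 u.2] at h2
  · rw [chr_of_ne hl, chr_of_ne hl]

end

end Pool.Agent.KLS
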